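import Pool.Agent.H24.RD.Targets

/-!
# The descent at one prime: proof of T_DP
-/

set_option autoImplicit false

namespace Pool.Agent.H13.RD

open Pool.Agent.H24.RD NumberField Height

theorem rep_mono (h : T_LVB) {F Ω : Type} [Field F] [NumberField F] [Field Ω]
    [Algebra F Ω] [IsAlgClosed Ω] [Algebra.IsAlgebraic F Ω] {r : ℕ} {γ : Fin r → F}
    (hγ : ∀ i, γ i ≠ 0) {N K N₁ K₁ : ℕ} (hN : 0 < N) (hK : 0 < K) (h1 : N ∣ N₁) (h2 : K ∣ K₁)
    (h3 : K₁ ∣ N₁) (h4 : 0 < N₁) {α : Ω} (hα : Rep F Ω γ N K α) : Rep F Ω γ N₁ K₁ α := by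
  obtain ⟨β, hβ, hβ0, g, hg, e⟩ := hα
  exact ⟨β, (h F Ω r γ hγ N K hN hK).2.2.2.2.2 N₁ K₁ h1 h2 h3 h4 hβ, hβ0, g, hg, e⟩

theorem pf_DP : T_LVB → T_STC → T_STK → T_DP := by
  intro hLVB hSTC hSTK F Ω _ _ _ _ _ _ _ p hp r γ hγ
  obtain ⟨R0, n0, δ1, hδ1, h1⟩ := hSTC F Ω p hp r γ hγ.1
  obtain ⟨m0, δ2, hδ2, h2⟩ := hSTK F Ω p hp r γ hγ R0
  refine ⟨max m0 n0 + R0 + 1, min δ1 δ2, lt_min hδ1 hδ2, ?_⟩
  intro n m N' K' hmn hN' hK' α hα hh
  have hm0 : m0 ≤ max m0 n0 := le_max_left _ _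
  have hn0 : n0 ≤ max m0 n0 := le_max_right _ _
  have hN'0 : 0 < N' := by
    rcases Nat.eq_zero_or_pos N' with h | h
    · rw [h] at hN'
      exact absurd (dvd_zero p) hN'
    · exact h
  have hK'0 : 0 < K' := Nat.pos_of_dvd_of_pos hK' hN'0
  have hpp : ∀ j : ℕ, 0 < p ^ j := fun j => pow_pos hp.pos j
  have key : ∀ t n m : ℕ, n + m = t → m ≤ n → Rep F Ω γ (p ^ n * N') (p ^ m * K') α →
      Rep F Ω γ (p ^ (max m0 n0 + R0 + 1) * N') (p ^ (max m0 n0 + R0 + 1) * K') α := by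
    intro t
    induction t with
    | zero =>
      intro n m ht hmn hr
      refine rep_mono hLVB hγ.1 (Nat.mul_pos (hpp n) hN'0) (Nat.mul_pos (hpp m) hK'0) ?_ ?_ ?_
        (Nat.mul_pos (hpp _) hN'0) hr
      · exact Nat.mul_dvd_mul_right (pow_dvd_pow p (by omega)) _
      · exact Nat.mul_dvd_mul_right (pow_dvd_pow p (by omega)) _
      · exact Nat.mul_dvd_mul_left _ hK'
    | succ t ih =>
      intro n m ht hmn hr
      by_cases hn : n ≤ max m0 n0 + R0 + 1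
      · refine rep_mono hLVB hγ.1 (Nat.mul_pos (hpp n) hN'0) (Nat.mul_pos (hpp m) hK'0) ?_ ?_ ?_
          (Nat.mul_pos (hpp _) hN'0) hr
        · exact Nat.mul_dvd_mul_right (pow_dvd_pow p hn) _
        · exact Nat.mul_dvd_mul_right (pow_dvd_pow p (by omega)) _
        · exact Nat.mul_dvd_mul_left _ hK'
      · by_cases hm : m + R0 + 1 ≤ n
        · have h3 := h1 n m N' K' (by omega) (by omega) hN' hK' α hr
            (hh.trans_le (min_le_left _ _))
          exact ih (n - 1) m (by omega) (by omega) h3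
        · have h3 := h2 n m N' K' (by omega) hmn (by omega) hN' hK' α hr
            (hh.trans_le (min_le_right _ _))
          exact ih n (m - 1) (by omega) (by omega) h3
  exact key (n + m) n m rfl hmn hα

end Pool.Agent.H13.RD
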