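import Pool.Agent.H24.RD.Targets

/-!
# The theorem for independent generators: proof of T_MB
-/

set_option autoImplicit false

namespace Pool.Agent.H13.RD

open Pool.Agent.H24.RD NumberField Height

theorem pf_MB : T_DS → T_FIN → T_MB := by
  intro hDS hFIN F Ω _ _ _ _ _ _ _ r γ hγ S hS hSne
  obtain ⟨ℓ, hℓ⟩ := hSne
  obtain ⟨N0, δ, hN0, hδ, h1⟩ := hDS F Ω r γ hγ S hS
  obtain ⟨c, hc, h2⟩ := hFIN F Ω r γ hγ ℓ N0 (hS ℓ hℓ) hN0
  refine ⟨min δ c, lt_min hδ hc, ?_⟩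
  intro N K hN hK hKS α hα hα'
  rcases lt_or_ge (absLogHeight₁ α) δ with h | h
  · obtain ⟨N', h3, h4, h5⟩ := h1 N K hN hK hKS α hα h
    exact (min_le_right _ _).trans (h2 N' (h3 ℓ hℓ) h4 α h5 hα')
  · exact (min_le_left _ _).trans h

end Pool.Agent.H13.RD
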