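import Pool.Agent.H82.RD.Targets

/-! # TQC: choice of the prime `q` -/

set_option autoImplicit false

namespace Pool.Agent.H13.RD

open Pool.Agent.H38.RB Pool.Agent.H38.PS Pool.Agent.H82.RD

theorem pf_TQC : T_TQC := by
  intro x a S X Λ hx hS hpd hΛ hle
  set m : ℕ := (x a).natAbs with hm
  have hcast : ((tp S m : ℕ) : ℝ) = ∏ q ∈ S, (q : ℝ) ^ m.factorization q := by
    unfold tp
    push_cast
    rfl
  have hlog : Real.log (tp S m) = ∑ q ∈ S, (m.factorization q : ℝ) * Real.log q := by
    rw [hcast, Real.log_prod fun q hq => pow_ne_zero _ (by exact_mod_cast (hS q hq).ne_zero)]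
    exact Finset.sum_congr rfl fun q _ => Real.log_pow _ _
  have hpdl : Real.log (pd S) = ∑ q ∈ S, Real.log q := by
    unfold pd
    push_cast
    exact Real.log_prod fun q hq => by exact_mod_cast (hS q hq).ne_zero
  have hne : S.Nonempty := by
    by_contra h
    rw [Finset.not_nonempty_iff_eq_empty] at h
    rw [hlog, h, Finset.sum_empty] at hle
    linarith
  obtain ⟨q, hq, hmax⟩ := Finset.exists_max_image S (fun q => m.factorization q) hne
  have h1 : ∑ l ∈ S, (m.factorization l : ℝ) * Real.log l ≤
      (m.factorization q : ℝ) * Real.log (pd S) := by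
    rw [hpdl, Finset.mul_sum]
    refine Finset.sum_le_sum fun l hl => ?_
    exact mul_le_mul_of_nonneg_right (by exact_mod_cast hmax l hl)
      (Real.log_nonneg (by exact_mod_cast (hS l hl).one_lt.le))
  have hpd1 : (0 : ℝ) < pd S := by
    exact_mod_cast Nat.pos_of_ne_zero (Finset.prod_ne_zero_iff.2 fun p hp => (hS p hp).ne_zero)
  have h2 : (m.factorization q : ℝ) * Real.log (pd S) ≤ (m.factorization q : ℝ) * Real.log X :=
    mul_le_mul_of_nonneg_left (Real.log_le_log hpd1 hpd) (Nat.cast_nonneg _)
  have h3 : Λ ≤ (m.factorization q : ℝ) * Real.log X := by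
    rw [hlog] at hle
    linarith
  refine ⟨q, hq, ?_, h3⟩
  refine Nat.dvd_of_factorization_pos (n := m) (p := q) ?_
  intro h0
  rw [h0] at h3
  simp only [Nat.cast_zero, zero_mul] at h3
  linarith

end Pool.Agent.H13.RD
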